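import Pool.Agent.Helper2_Pak.StmtsT

/-! # T2: the digits of the corners of the shape -/

namespace Pool.Agent.Helper2_Pak.H21

open Pool.Agent.Helper2_Pack (Polygon)

/-- the polynomial with the coefficients `k`, divided by `256` -/
def ev (t : ℚ) (k : List ℤ) : ℚ := (k.foldr (fun (a : ℤ) (r : ℚ) => (a : ℚ) + t * r) 0) / 256

/-- a corner -/
def pt (t : ℚ) (p : List ℤ × List ℤ) : ℚ × ℚ := (ev t p.1, ev t p.2)

def cBot : List (List ℤ × List ℤ) :=
  [([-128, 256], [-128, 0, -128]),
    ([-68], [-128, 0, -128]),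
    ([-64], [-128, 0, -128, 512]),
    ([-60], [-128, 0, -128]),
    ([60], [-128, 0, -128]),
    ([64], [-128, 0, -128, 512]),
    ([68], [-128, 0, -128])]

def cLeft : List (List ℤ × List ℤ) :=
  [([-128], [-128, 256, -128]),
    ([-128], [-68]),
    ([-128, 0, 0, 256, -254], [-66]),
    ([-128, 0, 0, 256, -258], [-62]),
    ([-128], [-60]),
    ([-128], [-16, 0, 0, 0, 0, 0, 0, -512]),
    ([128, 0, 0, -64], [-16]),
    ([-128], [-16, 0, 0, 0, 0, 0, 0, 512]),
    ([-128], [16, 0, 0, 0, 0, 0, 0, -512]),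
    ([128, 0, 0, -192], [16]),
    ([-128], [16, 0, 0, 0, 0, 0, 0, 512]),
    ([-128], [60]),
    ([-128, 0, 0, 256, -254], [62]),
    ([-128, 0, 0, 256, -258], [66]),
    ([-128], [68]),
    ([-128], [128, -256, 128]),
    ([-128, 256], [128, 0, 128])]

def cTop : List (List ℤ × List ℤ) :=
  [([-64, 0, 0, -256], [128, 0, 128]),
    ([-64], [128, 0, 128, 256]),
    ([-64, 0, 0, 256], [128, 0, 128]),
    ([64, 0, 0, -256], [128, 0, 128]),
    ([64], [128, 0, 128, 256]),
    ([64, 0, 0, 256], [128, 0, 128]),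
    ([128, -256], [128, 0, 128])]

def cRight : List (List ℤ × List ℤ) :=
  [([128, -256], [-128, 0, -128]),
    ([128], [-128, 256, -128]),
    ([128], [-84]),
    ([128, 0, 0, -130], [-82]),
    ([128, 0, 0, -126], [-78]),
    ([128], [-76]),
    ([128], [-52]),
    ([128, 0, 0, -126], [-50]),
    ([128, 0, 0, -130], [-46]),
    ([128], [-44]),
    ([128], [44]),
    ([128, 0, 0, -126], [46]),
    ([128, 0, 0, -130], [50]),
    ([128], [52]),
    ([128], [76]),
    ([128, 0, 0, -130], [78]),
    ([128, 0, 0, -126], [82]),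
    ([128], [84]),
    ([128], [128, -256, 128])]

theorem sBot_eq (t : ℚ) : sBot t = cBot.map (pt t) := by
  simp only [sBot, tentPts, cBot, pt, ev, hh, List.map, List.cons_append, List.nil_append,
    List.foldr, List.cons.injEq, Prod.mk.injEq, and_true]
  constructorm* _ ∧ _ <;> (push_cast; ring)

theorem sLeft_eq (t : ℚ) : sLeft t = cLeft.map (pt t) := by
  simp only [sLeft, pitPts, cLeft, pt, ev, hh, List.map, List.cons_append, List.nil_append,
    List.foldr, List.cons.injEq, Prod.mk.injEq, and_true]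
  constructorm* _ ∧ _ <;> (push_cast; ring)

theorem sTop_eq (t : ℚ) : sTop t = cTop.map (pt t) := by
  simp only [sTop, tentPts, cTop, pt, ev, hh, List.map, List.cons_append, List.nil_append,
    List.foldr, List.cons.injEq, Prod.mk.injEq, and_true]
  constructorm* _ ∧ _ <;> (push_cast; ring)

theorem sRight_eq (t : ℚ) : sRight t = cRight.map (pt t) := by
  simp only [sRight, pitPts, cRight, pt, ev, hh, List.map, List.cons_append, List.nil_append,
    List.foldr, List.cons.injEq, Prod.mk.injEq, and_true]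
  constructorm* _ ∧ _ <;> (push_cast; ring)

/-- all corners -/
def cAll : List (List ℤ × List ℤ) := cBot ++ (cLeft ++ cTop ++ cRight.reverse).reverse

theorem shape_eq (t : ℚ) : shapePoly t = cAll.map (pt t) := by
  unfold shapePoly cAll
  rw [sBot_eq, sLeft_eq, sTop_eq, sRight_eq]
  simp only [List.map_append, List.map_reverse]

/-- the coefficients are in range -/
def Good (k : List ℤ) : Prop :=
  k.length ≤ 8 ∧ -512 < k.getD 0 0 ∧ ∀ x ∈ k, -2048 < x ∧ x < 2047

instance (k : List ℤ) : Decidable (Good k) := by unfold Good; infer_instance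

theorem all_good : ∀ p ∈ cAll, Good p.1 ∧ Good p.2 := by decide +kernel

/-- the digits after the translation -/
def dg (k : List ℤ) (j : ℕ) : ℕ :=
  ((if j = 0 then 512 else if j = 8 then 2049 else 2048) + k.getD j 0).toNat

theorem getD_bd {k : List ℤ} (h : Good k) (j : ℕ) : -2048 < k.getD j 0 ∧ k.getD j 0 < 2047 := by
  rw [List.getD_eq_getElem?_getD]
  by_cases hj : j < k.length
  · rw [List.getElem?_eq_getElem hj, Option.getD_some]
    exact h.2.2 _ (List.getElem_mem hj)
  · rw [List.getElem?_eq_none (by omega), Option.getD_none]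
    omega

theorem ev_sum (t : ℚ) : ∀ (n : ℕ) (k : List ℤ), k.length ≤ n →
    k.foldr (fun (a : ℤ) (r : ℚ) => (a : ℚ) + t * r) 0 = ∑ j ∈ Finset.range n, ((k.getD j 0 : ℤ) : ℚ) * t ^ j
  | 0, k, h => by
    have : k = [] := List.length_eq_zero_iff.mp (by omega)
    subst this
    simp
  | n + 1, [], h => by simp
  | n + 1, a :: k, h => by
    have h1 : k.length ≤ n := by simpa using h
    rw [List.foldr_cons, ev_sum t n k h1, Finset.sum_range_succ', Finset.mul_sum]
    simp only [List.getD_cons_zero, List.getD_cons_succ, pow_zero, mul_one]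
    rw [add_comm]
    congr 1
    exact Finset.sum_congr rfl fun j _ => by ring

theorem dg_cast {k : List ℤ} (h : Good k) (j : ℕ) : ((dg k j : ℕ) : ℚ) =
    ((if j = 0 then 512 else if j = 8 then 2049 else 2048 : ℤ) : ℚ) + ((k.getD j 0 : ℤ) : ℚ) := by
  have hb := getD_bd h j
  have h0 := h.2.1
  have h1 : (0 : ℤ) ≤ (if j = 0 then 512 else if j = 8 then 2049 else 2048) + k.getD j 0 := by
    by_cases hj : j = 0
    · subst hj
      rw [if_pos rfl]
      omega
    · rw [if_neg hj]
      split_ifs <;> omega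
  have h2 : ((dg k j : ℕ) : ℤ) =
      (if j = 0 then 512 else if j = 8 then 2049 else 2048) + k.getD j 0 := by
    unfold dg
    exact Int.toNat_of_nonneg h1
  rw [← Int.cast_add, ← h2]
  simp

theorem dg_val {k : List ℤ} (h : Good k) (m : ℕ) :
    digVal m (dg k) = ev ((1 / 2) ^ m) k + shift 8 ((1 / 2) ^ m) := by
  have h8 : k.getD 8 0 = 0 := by
    rw [List.getD_eq_getElem?_getD, List.getElem?_eq_none (by have := h.1; omega)]
    rfl
  unfold digVal ev shift
  rw [ev_sum _ 8 k h.1]
  simp only [Finset.sum_range_succ, Finset.sum_range_zero, dg_cast h, h8]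
  norm_num
  ring

theorem dg_ok {k : List ℤ} (h : Good k) {m : ℕ} (hm : 60 ≤ m) : DigOK m (dg k) := by
  have h8 : k.getD 8 0 = 0 := by
    rw [List.getD_eq_getElem?_getD, List.getElem?_eq_none (by have := h.1; omega)]
    rfl
  refine ⟨?_, ?_, ?_⟩
  · have := h.2.1
    unfold dg
    rw [if_pos rfl]
    omega
  · unfold dg
    rw [h8]
    rfl
  · intro j hj1 hj8
    have hb := getD_bd h j
    have h2 : (2 : ℕ) ^ 60 ≤ 2 ^ m := Nat.pow_le_pow_right (by norm_num) hm
    have h3 : dg k j < 2 ^ 60 := by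
      unfold dg
      rw [if_neg (by omega)]
      split_ifs <;> omega
    omega

/-- T2 -/
theorem t2 : T2Stmt := by
  refine ⟨cAll.map fun p => (dg p.1, dg p.2), fun m hm => ⟨?_, ?_⟩⟩
  · intro d hd
    obtain ⟨p, hp, rfl⟩ := List.mem_map.mp hd
    exact ⟨dg_ok (all_good p hp).1 hm, dg_ok (all_good p hp).2 hm⟩
  · unfold translate dPoly
    rw [shape_eq, List.map_map, List.map_map]
    refine List.map_congr_left fun p hp => ?_
    simp only [Function.comp, pt]
    rw [dg_val (all_good p hp).1, dg_val (all_good p hp).2]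

end Pool.Agent.Helper2_Pak.H21
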